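import Pool.Agent.RS.StmtsT

/-!
# DER: a derivation of a domain extends to its field of fractions
-/

set_option autoImplicit false

namespace Pool.Agent.RS.H64

open TrivSqZeroExt

theorem der_aux (k B K : Type) [Field k] [CommRing B] [IsDomain B] [Algebra k B] [Field K]
    [Algebra B K] [IsFractionRing B K] (D : Derivation k B B) : ∃ D' : K →+ K,
    (∀ b, D' (algebraMap B K b) = algebraMap B K (D b)) ∧
    ∀ x y, D' (x * y) = x * D' y + y * D' x := by
  let f : B →+* TrivSqZeroExt K K :=
    { toFun := fun b => inl (algebraMap B K b) + inr (algebraMap B K (D b))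
      map_one' := by
        have h : D (1 : B) = 0 := Derivation.map_one_eq_zero D
        rw [h, map_one, map_zero, inr_zero, add_zero, inl_one]
      map_zero' := by
        rw [map_zero, map_zero, map_zero, inl_zero, inr_zero, add_zero]
      map_add' := by
        intro a b
        ext
        · simp only [fst_add, fst_inl, fst_inr, map_add, add_zero]
        · simp only [snd_add, snd_inl, snd_inr, map_add, zero_add]
      map_mul' := by
        intro a b
        ext
        · simp only [fst_add, fst_inl, fst_inr, fst_mul, map_mul, add_zero]
        · have h : D (a * b) = a * D b + b * D a := D.leibniz a b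
          simp only [h, snd_add, snd_inl, snd_inr, snd_mul, fst_add, fst_inl, fst_inr, map_mul,
            map_add, zero_add, add_zero, smul_eq_mul, MulOpposite.smul_eq_mul_unop,
            MulOpposite.unop_op]
          ring }
  have hf1 : ∀ b, (f b).fst = algebraMap B K b := by
    intro b
    change (inl (algebraMap B K b) + inr (algebraMap B K (D b)) : TrivSqZeroExt K K).fst = _
    simp only [fst_add, fst_inl, fst_inr, add_zero]
  have hf2 : ∀ b, (f b).snd = algebraMap B K (D b) := by
    intro b
    change (inl (algebraMap B K b) + inr (algebraMap B K (D b)) : TrivSqZeroExt K K).snd = _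
    simp only [snd_add, snd_inl, snd_inr, zero_add]
  have hunit : ∀ y : nonZeroDivisors B, IsUnit (f y) := by
    intro y
    rw [isUnit_iff_isUnit_fst, hf1]
    exact IsLocalization.map_units K y
  let g : K →+* TrivSqZeroExt K K := IsLocalization.lift (M := nonZeroDivisors B) (S := K) hunit
  have hg : ∀ b, g (algebraMap B K b) = f b := fun b => IsLocalization.lift_eq hunit b
  have hfst : ∀ x, (g x).fst = x := by
    intro x
    have h : ((fstHom K K K : TrivSqZeroExt K K →ₐ[K] K) : TrivSqZeroExt K K →+* K).comp g =
        RingHom.id K := by
      refine IsLocalization.ringHom_ext (nonZeroDivisors B) ?_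
      ext b
      change (g (algebraMap B K b)).fst = algebraMap B K b
      rw [hg, hf1]
    exact DFunLike.congr_fun h x
  refine ⟨{ toFun := fun x => (g x).snd, map_zero' := ?_, map_add' := ?_ }, ?_, ?_⟩
  · rw [map_zero, snd_zero]
  · intro x y
    rw [map_add, snd_add]
  · intro b
    change (g (algebraMap B K b)).snd = algebraMap B K (D b)
    rw [hg, hf2]
  · intro x y
    change (g (x * y)).snd = x * (g y).snd + y * (g x).snd
    rw [map_mul, snd_mul, hfst, hfst]
    simp [mul_comm]

theorem der : DerStmt := fun k B _ _ _ _ D => der_aux k B (FractionRing B) D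

end Pool.Agent.RS.H64
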